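import Pool.Agent.N206.HJ.Stm

set_option autoImplicit false

/-!
Powers with exponents divisible by powers of `p`, and elementary facts on the congruence subgroups.
-/

namespace Pool.Agent.N564.HJ

open MvPowerSeries Pool.Agent.N206.HJ

variable {p : ℕ}

theorem pow_sub_pow_mem {P s : ℕ} {y z : A p} (hs : 1 ≤ s) (hy : y ∈ M p P) (hz : z ∈ M p (s * P))
    (n : ℕ) : (y + z) ^ n - y ^ n ∈ M p (P * n + P * (s - 1)) := by
  induction n with
  | zero =>
    rw [pow_zero, pow_zero, sub_self]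
    exact Ideal.zero_mem _
  | succ n ih =>
    obtain ⟨r, rfl⟩ : ∃ r, s = r + 1 := ⟨s - 1, by omega⟩
    rw [Nat.add_sub_cancel] at ih ⊢
    have hyz : y + z ∈ M p P := by
      refine Ideal.add_mem _ hy (M_anti ?_ hz)
      rw [Nat.succ_mul]
      exact Nat.le_add_left _ _
    have e : (y + z) ^ (n + 1) - y ^ (n + 1) = ((y + z) ^ n - y ^ n) * (y + z) + y ^ n * z := by
      ring
    rw [e]
    refine Ideal.add_mem _ (M_anti ?_ (M_mul ih hyz)) (M_anti ?_ (M_mul (M_pow hy n) hz))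
    · have : P * (n + 1) + P * r = P * n + P * r + P := by ring
      omega
    · have : P * (n + 1) + P * r = P * n + (r + 1) * P := by ring
      omega

theorem t_PPOW (p : ℕ) [Fact p.Prime] : S_PPOW p := by
  intro ε a s m j hε hs hm
  obtain ⟨n, rfl⟩ := hm
  have : CharP (A p) p := charP_of_injective_algebraMap (algebraMap (ZMod p) (A p)).injective p
  have e : (X a + ε) ^ (p ^ j * n) - X a ^ (p ^ j * n) =
      ((X a : A p) ^ p ^ j + ε ^ p ^ j) ^ n - (X a ^ p ^ j) ^ n := by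
    rw [pow_mul, pow_mul, add_pow_char_pow]
  rw [e]
  exact pow_sub_pow_mem hs (Xpow_mem a _) (M_pow hε _) n

theorem comm_mem {i j t : ℕ} {g h : Au p} (hg : g ∈ Ga p i) (hh : h ∈ Ga p j) {f : A p}
    (hf : f ∈ M p t) : (g * h * g⁻¹ * h⁻¹) f - f ∈ M p (t + (i + j)) := by
  have hf' : g⁻¹ (h⁻¹ f) ∈ M p t :=
    Ga_pres ((Ga p i).inv_mem hg) (Ga_pres ((Ga p j).inv_mem hh) hf)
  set f' := g⁻¹ (h⁻¹ f) with hf'def
  have e1 : h (g f') = f := by
    rw [hf'def, inv_ap, inv_ap]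
  have e2 : (g * h * g⁻¹ * h⁻¹) f = g (h f') := rfl
  have e3 : (g * h * g⁻¹ * h⁻¹) f - f =
      (g (h f' - f') - (h f' - f')) - (h (g f' - f') - (g f' - f')) := by
    rw [e2]
    conv_lhs => rw [← e1]
    rw [map_sub, map_sub]
    ring
  rw [e3]
  refine Ideal.sub_mem _ (M_anti ?_ (Ga_sub hg (Ga_sub hh hf')))
    (M_anti ?_ (Ga_sub hh (Ga_sub hg hf')))
  · omega
  · omega

theorem inv_mul_mem [Fact p.Prime] (h : S_DET p) {k : ℕ} {g g' : Au p} (hg : g ∈ Ga p 1)
    (hg' : g' ∈ Ga p 1) (hX : ∀ i, g (X i) - g' (X i) ∈ M p (k + 1)) : g⁻¹ * g' ∈ Ga p k := by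
  have key : ∀ (a b : Au p), a ∈ Ga p 1 → b ∈ Ga p 1 →
      (∀ i, a (X i) - b (X i) ∈ M p (k + 1)) → ∀ (t : ℕ), ∀ f ∈ M p t,
      (a⁻¹ * b) f - f ∈ M p (t + k) := by
    intro a b ha hb hab t f hf
    have h1 : a f - b f ∈ M p (t + k) := h a b k ha hb hab t f hf
    have h2 : (a⁻¹ * b) f - f = a⁻¹ (-(a f - b f)) := by
      rw [mul_ap, neg_sub, map_sub, ap_inv]
    rw [h2]
    exact Ga_pres ((Ga p 1).inv_mem ha) ((Ideal.neg_mem_iff _).mpr h1)
  intro t f hf
  refine ⟨key g g' hg hg' hX t f hf, ?_⟩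
  have h3 : (g⁻¹ * g').symm f = (g'⁻¹ * g) f := by
    rw [← inv_eq, mul_inv_rev, inv_inv]
  rw [h3]
  refine key g' g hg' hg (fun i => ?_) t f hf
  rw [← neg_sub]
  exact (Ideal.neg_mem_iff _).mpr (hX i)

theorem t_GRP (p : ℕ) [Fact p.Prime] (h : S_DET p) : S_GRP p := by
  refine ⟨?_, ?_, ?_⟩
  · intro i j g k hg hk t f hf
    refine ⟨comm_mem hg hk hf, ?_⟩
    have e : (g * k * g⁻¹ * k⁻¹).symm f = (k * g * k⁻¹ * g⁻¹) f := by
      have e0 : (g * k * g⁻¹ * k⁻¹)⁻¹ = k * g * k⁻¹ * g⁻¹ := by group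
      rw [← inv_eq, e0]
    rw [e, add_comm i j]
    exact comm_mem hk hg hf
  · intro g hg
    apply AlgEquiv.ext
    intro f
    have h0 : g f - f = 0 := by
      apply M_all
      intro k
      have := Ga_sub (hg k) (M_zero f)
      rwa [zero_add] at this
    exact sub_eq_zero.mp h0
  · intro k
    have : NeZero p := ⟨(Fact.out : p.Prime).ne_zero⟩
    have hfin : Finite {α : Fin 3 →₀ ℕ // α.degree < k + 1} := by
      let G : {α : Fin 3 →₀ ℕ // α.degree < k + 1} → Fin 3 → Fin (k + 1) :=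
        fun α i => ⟨α.1 i, lt_of_le_of_lt (Finsupp.le_degree i α.1) α.2⟩
      refine Finite.of_injective G ?_
      intro α β hαβ
      apply Subtype.ext
      ext i
      exact congrArg Fin.val (congrFun hαβ i)
    let F : Ga p 1 → Fin 3 → {α : Fin 3 →₀ ℕ // α.degree < k + 1} → ZMod p :=
      fun g i α => coeff α.1 ((g : Au p) (X i))
    have hF : ∀ g g' : Ga p 1, F g = F g' → g⁻¹ * g' ∈ (Ga p k).subgroupOf (Ga p 1) := by
      intro g g' hgg
      rw [Subgroup.mem_subgroupOf]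
      refine inv_mul_mem h g.2 g'.2 (fun i α hα => ?_)
      rw [map_sub, sub_eq_zero]
      exact congrFun (congrFun hgg i) ⟨α, hα⟩
    have : Finite (Ga p 1 ⧸ (Ga p k).subgroupOf (Ga p 1)) := by
      refine Finite.of_injective (fun q => F q.out) ?_
      intro q q' hqq
      have h1 := hF _ _ hqq
      rw [← QuotientGroup.eq, QuotientGroup.out_eq', QuotientGroup.out_eq'] at h1
      exact h1
    exact Subgroup.index_ne_zero_of_finite

end Pool.Agent.N564.HJ
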