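import Pool.Agent.N206.HJ.Stm

set_option autoImplicit false

/-!
The second step: leading terms of the two kinds `K1` and `K2`.
-/

namespace Pool.Agent.N564.HJ

open MvPowerSeries Pool.Agent.N206.HJ

variable {p : ℕ}

/-- a vector field supported at one index -/
theorem vf_single (f : Fin 3) (e g : A p) :
    vf (fun i => if i = f then e else 0) g = e * pderiv (ZMod p) f g := by
  rw [vf, Finset.sum_eq_single f]
  · simp
  · intro b _ hb
    simp [hb]
  · intro h; exact absurd (Finset.mem_univ f) h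

theorem pderiv_pow_of_ne {f a : Fin 3} (h : f ≠ a) (j : ℕ) :
    pderiv (ZMod p) f (X a ^ j : A p) = 0 := by
  rw [Derivation.leibniz_pow, pderiv_X_of_ne, smul_zero, smul_zero]
  first | exact h | exact h.symm

theorem pderiv_C_mul_pow {f a : Fin 3} (h : f ≠ a) (κ : ZMod p) (j : ℕ) :
    pderiv (ZMod p) f (C κ * X a ^ j : A p) = 0 := by
  rw [Derivation.leibniz, pderiv_pow_of_ne h, pderiv_C, smul_zero, smul_zero, add_zero]

theorem vf_zero (D : Fin 3 → A p) : vf D (0 : A p) = 0 := by
  simp [vf]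

/-- the engine -/
theorem engine [Fact p.Prime] (h1 : S_EXIST p) (h2 : S_LT p) {k : ℕ} {N : Subgroup (Au p)}
    (hN : N ≤ Ga p 1) (hCl : Cl p k N) {u : Au p} (hu : u ∈ N) {D : Fin 3 → A p} {j : ℕ}
    (hj : 2 ≤ j) (hD : ∀ i, D i ∈ M p j) (hA : Ap (j + 1) D u) (E : Fin 3 → A p) (n : ℕ)
    (hn1 : 1 ≤ n) (hnk : k ≤ n) (hE : ∀ i, E i ∈ M p (n + 1))
    (hP : ∀ i, ∃ P : MvPolynomial (Fin 3) (ZMod p), E i = (P : A p)) :
    ∃ w ∈ N, Ap (n + 1 + j) (br E D) w := by
  obtain ⟨h, hh, hX⟩ := h1 n hn1 E hE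
  have hpoly : Poly h := by
    intro i
    obtain ⟨P, hP⟩ := hP i
    refine ⟨MvPolynomial.X i + P, ?_⟩
    rw [hX i, hP, MvPolynomial.coe_add, MvPolynomial.coe_X]
  refine ⟨h * u * h⁻¹ * u⁻¹, N.mul_mem (hCl h (Ga_anti hnk hh) hpoly u hu) (N.inv_mem hu), ?_⟩
  refine h2 h u E D (n + 1) j (by omega) hj (Ga_anti hn1 hh) (hN hu) hE hD ?_ hA
  intro i
  rw [hX i]
  have : X i + E i - X i - E i = 0 := by ring
  rw [this]
  exact Ideal.zero_mem _

/-- the first step: any direction different from `a` -/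
theorem step1 [Fact p.Prime] (h1 : S_EXIST p) (h2 : S_LT p) {k : ℕ} {N : Subgroup (Au p)}
    (hN : N ≤ Ga p 1) (hCl : Cl p k N)
    (hF : ∀ a : Fin 3, ∃ (j : ℕ) (v : Fin 3 → ZMod p), 2 ≤ j ∧ v ≠ 0 ∧
      ∃ u ∈ N, Ap (j + 1) (fun i => C (v i) * X a ^ j) u)
    (a f : Fin 3) (haf : f ≠ a) :
    ∃ (j : ℕ) (κ : ZMod p), κ ≠ 0 ∧ 2 ≤ j ∧
      ∃ u ∈ N, Ap (j + 1) (fun i => if i = f then C κ * X a ^ j else 0) u := by
  obtain ⟨j, v, hj, hv, u, hu, hA⟩ := hF a
  obtain ⟨e0, he0⟩ := Function.ne_iff.mp hv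
  have hp : 0 < p := (Fact.out : p.Prime).pos
  have hpk : k + 2 ≤ p * (k + 2) := Nat.le_mul_of_pos_left _ hp
  obtain ⟨w, hw, hB⟩ := engine h1 h2 hN hCl hu hj
    (fun i => M_mul_left (Xpow_mem a j)) hA
    (fun i => if i = f then X a ^ (p * (k + 2)) * X e0 else 0) (p * (k + 2)) (by omega)
    (by omega)
    (by
      intro i
      split_ifs
      · exact M_mul (Xpow_mem a _) (X_mem e0)
      · exact Ideal.zero_mem _)
    (by
      intro i
      refine ⟨if i = f then MvPolynomial.X a ^ (p * (k + 2)) * MvPolynomial.X e0 else 0, ?_⟩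
      split_ifs
      · simp
      · simp)
  refine ⟨p * (k + 2) + j, - v e0, neg_ne_zero.mpr he0, by omega, w, hw, ?_⟩
  have e1 : (fun i => if i = f then C (- v e0) * X a ^ (p * (k + 2) + j) else 0 : Fin 3 → A p) =
      br (fun i => if i = f then X a ^ (p * (k + 2)) * X e0 else 0)
        (fun i => C (v i) * X a ^ j) := by
    funext i
    rw [br, vf_single, pderiv_C_mul_pow haf, mul_zero, zero_sub]
    split_ifs with hi
    · rw [vf_Xpow_mul _ _ _ (dvd_mul_right p _), vf_X, map_neg, pow_add]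
      ring
    · rw [vf_zero, neg_zero]
  rw [e1, show p * (k + 2) + j + 1 = p * (k + 2) + 1 + j by ring]
  exact hB

theorem exists_third : ∀ a c : Fin 3, a ≠ c → ∃ f : Fin 3, f ≠ a ∧ f ≠ c := by decide

theorem t_SECOND (p : ℕ) [Fact p.Prime] (h1 : S_EXIST p) (h2 : S_LT p) : S_SECOND p := by
  intro k N hk hN hCl hF a c hac
  have hp : 0 < p := (Fact.out : p.Prime).pos
  have hpk : k + 2 ≤ p * (k + 2) := Nat.le_mul_of_pos_left _ hp
  constructor
  · obtain ⟨j, κ, hκ, hj, u, hu, hA⟩ := step1 h1 h2 hN hCl hF a c (Ne.symm hac)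
    obtain ⟨w, hw, hB⟩ := engine h1 h2 hN hCl hu hj
      (by
        intro i
        split_ifs
        · exact M_mul_left (Xpow_mem a j)
        · exact Ideal.zero_mem _) hA
      (fun i => if i = c then X a ^ ((p - 1) * j + p * (k + 2)) * X c else 0)
      ((p - 1) * j + p * (k + 2)) (by omega) (by omega)
      (by
        intro i
        split_ifs
        · exact M_mul (Xpow_mem a _) (X_mem c)
        · exact Ideal.zero_mem _)
      (by
        intro i
        refine ⟨if i = c then MvPolynomial.X a ^ ((p - 1) * j + p * (k + 2)) * MvPolynomial.X c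
          else 0, ?_⟩
        split_ifs
        · simp
        · simp)
    have hs : (p - 1) * j + p * (k + 2) + j = p * (j + (k + 2)) := by
      obtain ⟨q, rfl⟩ : ∃ q, p = q + 1 := ⟨p - 1, by omega⟩
      rw [Nat.add_sub_cancel]
      ring
    have hpos : j + (k + 2) ≤ p * (j + (k + 2)) := Nat.le_mul_of_pos_left _ hp
    refine ⟨w, hw, p * (j + (k + 2)), - κ, neg_ne_zero.mpr hκ, dvd_mul_right p _, by omega, ?_⟩
    have e1 : (fun i => if i = c then C (- κ) * X a ^ (p * (j + (k + 2))) else 0 : Fin 3 → A p) =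
        br (fun i => if i = c then X a ^ ((p - 1) * j + p * (k + 2)) * X c else 0)
          (fun i => if i = c then C κ * X a ^ j else 0) := by
      funext i
      rw [br, vf_single, vf_single]
      split_ifs with hi
      · rw [pderiv_C_mul_pow (Ne.symm hac), mul_zero, zero_sub, Derivation.leibniz,
          pderiv_pow_of_ne (Ne.symm hac), pderiv_X_self, smul_zero, add_zero, smul_eq_mul, mul_one,
          ← hs, map_neg, pow_add _ _ j]
        ring
      · simp
    rw [e1, ← hs, show (p - 1) * j + p * (k + 2) + j + 1 = (p - 1) * j + p * (k + 2) + 1 + j by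
      omega]
    exact hB
  · obtain ⟨f, hfa, hfc⟩ := exists_third a c hac
    obtain ⟨j, κ, hκ, hj, u, hu, hA⟩ := step1 h1 h2 hN hCl hF a f hfa
    obtain ⟨w, hw, hB⟩ := engine h1 h2 hN hCl hu hj
      (by
        intro i
        split_ifs
        · exact M_mul_left (Xpow_mem a j)
        · exact Ideal.zero_mem _) hA
      (fun i => if i = c then X a ^ ((p - 1) * j + p * (k + 2)) * X f * X c else 0)
      ((p - 1) * j + p * (k + 2) + 1) (by omega) (by omega)
      (by
        intro i
        split_ifs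
        · exact M_mul (M_mul (Xpow_mem a _) (X_mem f)) (X_mem c)
        · exact Ideal.zero_mem _)
      (by
        intro i
        refine ⟨if i = c then MvPolynomial.X a ^ ((p - 1) * j + p * (k + 2)) * MvPolynomial.X f *
          MvPolynomial.X c else 0, ?_⟩
        split_ifs
        · simp
        · simp)
    have hs : (p - 1) * j + p * (k + 2) + j = p * (j + (k + 2)) := by
      obtain ⟨q, rfl⟩ : ∃ q, p = q + 1 := ⟨p - 1, by omega⟩
      rw [Nat.add_sub_cancel]
      ring
    have hpos : j + (k + 2) ≤ p * (j + (k + 2)) := Nat.le_mul_of_pos_left _ hp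
    refine ⟨w, hw, p * (j + (k + 2)), - κ, neg_ne_zero.mpr hκ, dvd_mul_right p _, by omega, ?_⟩
    have e1 : (fun i => if i = c then C (- κ) * X a ^ (p * (j + (k + 2))) * X c else 0 :
          Fin 3 → A p) =
        br (fun i => if i = c then X a ^ ((p - 1) * j + p * (k + 2)) * X f * X c else 0)
          (fun i => if i = f then C κ * X a ^ j else 0) := by
      funext i
      rw [br, vf_single, vf_single]
      have hz : pderiv (ZMod p) c (if i = f then C κ * X a ^ j else 0 : A p) = 0 := by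
        split_ifs
        · exact pderiv_C_mul_pow (Ne.symm hac) _ _
        · exact map_zero _
      rw [hz, mul_zero, zero_sub]
      split_ifs with hi
      · have hd1 : pderiv (ZMod p) f (X c : A p) = 0 := by
          rw [pderiv_X_of_ne]
          first | exact hfc | exact hfc.symm
        rw [Derivation.leibniz, Derivation.leibniz, pderiv_pow_of_ne hfa, pderiv_X_self, hd1,
          smul_zero, smul_zero, zero_add, add_zero, smul_eq_mul, smul_eq_mul, mul_one,
          ← hs, map_neg, pow_add _ _ j]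
        ring
      · rw [map_zero, mul_zero, neg_zero]
    rw [e1, ← hs, show (p - 1) * j + p * (k + 2) + j + 2 =
      (p - 1) * j + p * (k + 2) + 1 + 1 + j by omega]
    exact hB

end Pool.Agent.N564.HJ
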